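import Pool.Agent.Y184.SP.Base3

/-!
The function on the surface which extends a periodic function on `W` (helper807 for helper184).
-/

set_option autoImplicit false

open Set Topology Filter
open scoped ContDiff Manifold

namespace Pool.Agent.Y184.SP

/-- complex analytic maps from a complex surface to `E` are real smooth -/
theorem real_of_complex {Y : Type} [TopologicalSpace Y] [ChartedSpace (ℂ × ℂ) Y] {g : Y → E}
    {p : Y} (hg : ContMDiffAt 𝓘(ℂ, E) 𝓘(ℂ, E) ω g p) :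
    ContMDiffAt 𝓘(ℝ, E) 𝓘(ℝ, E) ∞ g p := by
  rw [contMDiffAt_iff] at hg ⊢
  refine ⟨hg.1, ?_⟩
  have h2 := hg.2
  have h3 : ContDiffWithinAt ℂ ∞ ((extChartAt 𝓘(ℂ, E) (g p)) ∘ g ∘ (extChartAt 𝓘(ℂ, E) p).symm)
      (range 𝓘(ℂ, E)) ((extChartAt 𝓘(ℂ, E) p) p) := h2.of_le le_top
  have h4 := h3.restrict_scalars ℝ
  exact h4

theorem Lam_neg {l : ℂ} (hl : l ∈ Lam) : -l ∈ Lam := by
  obtain ⟨m, n, rfl⟩ := hl
  exact ⟨-m, -n, by push_cast; ring⟩

theorem per_eq {u : E → ℝ} (hu : Per u) {w w' : E} (h2 : w.2 = w'.2) (h1 : w.1 - w'.1 ∈ Lam) :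
    u w = u w' := by
  have := hu w'.1 w'.2 _ h1
  rw [add_sub_cancel] at this
  rw [← h2] at this
  rw [show w = (w.1, w.2) from rfl, this, h2]

section

variable (τ : TopologicalSpace X) (ch : ChartedSpace E X)

/-- the points of the surface with coordinates in `W` are dense -/
theorem mem_closure_W (hPt : StPt) (hCpt : StCpt) (hM : IsMan τ ch) (j : Fin 5) (z : E)
    (hz : z ∈ V j) : kap j z ∈ closure (kap 0 '' W) := by
  rw [mem_closure_iff_nhds]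
  intro N hN
  have hc : ContinuousAt (kap j) z := (hM.kap_an j z hz).continuousAt
  have h1 : kap j ⁻¹' N ∈ 𝓝 z := hc hN
  have h2 : V j ∈ 𝓝 z := (hPt.1 j).mem_nhds hz
  have h3 := hCpt.2.1 j z hz
  rw [mem_closure_iff_nhds] at h3
  obtain ⟨t, ⟨ht1, ht2⟩, ht3⟩ := h3 _ (inter_mem h1 h2)
  exact ⟨kap j t, ht1, tr j t, ht3, (hPt.2.2.2.1 j t ht2 ht3).symm⟩

open Classical in
/-- the function on the points with coordinates in `W` -/
noncomputable def ext0 (u : E → ℝ) (p : X) : ℝ :=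
  if h : ∃ w ∈ W, kap 0 w = p then u h.choose else 0

theorem ext0_eq (hPt : StPt) {u : E → ℝ} (hu : Per u) {p : X} {w : E} (hw : w ∈ W)
    (h : kap 0 w = p) : ext0 u p = u w := by
  have h0 : ∃ w ∈ W, kap 0 w = p := ⟨w, hw, h⟩
  have h1 : ext0 u p = u h0.choose := by
    unfold ext0
    rw [dif_pos h0]
  rw [h1]
  obtain ⟨h2, h3⟩ := h0.choose_spec
  have h4 := hPt.2.2.2.2.1 _ h2 _ hw (h3.trans h.symm)
  exact per_eq hu h4.1 h4.2

theorem ext_apply (hPt : StPt) (hCpt : StCpt) (hM : IsMan τ ch) {u : E → ℝ} (hu : Per u)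
    (j : Fin 5) (z : E) (hz : z ∈ V j) (f : E → ℝ) (hf : ContinuousAt f z)
    (h : ∀ᶠ z' in 𝓝 z, tr j z' ∈ W → f z' = u (tr j z')) :
    extendFrom (kap 0 '' W) (ext0 u) (kap j z) = f z := by
  refine extendFrom_eq (mem_closure_W τ ch hPt hCpt hM j z hz) ?_
  obtain ⟨g, hg1, hg2, hg3, hg4⟩ := hM.inv j z hz
  have hgc : ContinuousAt g (kap j z) := hg1.continuousAt
  have hgt : Tendsto g (𝓝 (kap j z)) (𝓝 z) := by
    have := hgc.tendsto
    rwa [hg2] at this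
  have h1 : Tendsto (fun p => f (g p)) (𝓝[kap 0 '' W] (kap j z)) (𝓝 (f z)) :=
    (hf.tendsto.comp hgt).mono_left nhdsWithin_le_nhds
  refine h1.congr' ?_
  have h2 : ∀ᶠ p in 𝓝[kap 0 '' W] (kap j z), kap j (g p) = p :=
    hg3.filter_mono nhdsWithin_le_nhds
  have h3 : ∀ᶠ p in 𝓝[kap 0 '' W] (kap j z), g p ∈ V j :=
    (hgt.eventually ((hPt.1 j).mem_nhds hz)).filter_mono nhdsWithin_le_nhds
  have h4 : ∀ᶠ p in 𝓝[kap 0 '' W] (kap j z), tr j (g p) ∈ W → f (g p) = u (tr j (g p)) :=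
    (hgt.eventually h).filter_mono nhdsWithin_le_nhds
  filter_upwards [h2, h3, h4, self_mem_nhdsWithin] with p p2 p3 p4 p5
  obtain ⟨w, hw, hwp⟩ := p5
  have h5 : tr j (g p) ∈ W := hPt.2.2.2.2.2.1 j _ p3 w hw (p2.trans hwp.symm)
  rw [p4 h5]
  symm
  refine ext0_eq hPt hu h5 ?_
  rw [← hPt.2.2.2.1 j _ p3 h5, p2]

end

theorem t_Ext (hPt : StPt) (hCpt : StCpt) : StExt := by
  intro τ ch hM u hu
  refine ⟨extendFrom (kap 0 '' W) (ext0 u), ?_⟩
  intro j z hz f hf h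
  have h1 : ∀ᶠ z' in 𝓝 z, extendFrom (kap 0 '' W) (ext0 u) (kap j z') = f z' := by
    filter_upwards [hf, h.eventually_nhds, (hPt.1 j).mem_nhds hz] with z' a1 a2 a3
    exact ext_apply τ ch hPt hCpt hM hu j z' a3 f a1.continuousAt a2
  refine ⟨h1, ?_⟩
  obtain ⟨g, hg1, hg2, hg3, hg4⟩ := hM.inv j z hz
  have hgt : Tendsto g (𝓝 (kap j z)) (𝓝 z) := by
    have := hg1.continuousAt.tendsto
    rwa [hg2] at this
  have h2 : extendFrom (kap 0 '' W) (ext0 u) =ᶠ[𝓝 (kap j z)] fun p => f (g p) := by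
    filter_upwards [hg3, hgt.eventually h1] with p a1 a2
    rw [a1] at a2
    exact a2
  have h3 : ContMDiffAt 𝓘(ℝ, E) 𝓘(ℝ, ℝ) ∞ (fun p => f (g p)) (kap j z) := by
    have h4 : ContDiffAt ℝ ∞ f (g (kap j z)) := by
      rw [hg2]
      exact hf.self_of_nhds
    exact h4.contMDiffAt.comp (kap j z) (real_of_complex hg1)
  exact h3.congr_of_eventuallyEq h2

end Pool.Agent.Y184.SP
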