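import Pool.Agent.Y807.SP.Ext

/-!
The form on the surface with the local potentials of a periodic function on `W`
(helper807 for helper184).
-/

set_option autoImplicit false

open Set Topology Filter
open scoped ContDiff Manifold

namespace Pool.Agent.Y184.SP

namespace ValAux

theorem lap_congr {f g : ℂ → ℝ} (h : f =ᶠ[𝓝 0] g) :
    Laplacian.laplacian f 0 = Laplacian.laplacian g 0 :=
  (InnerProductSpace.laplacian_congr_nhds h).self_of_nhds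

theorem lev_congr {ρ σ : E → ℝ} {z : E} (h : ρ =ᶠ[𝓝 z] σ) (v : E) : lev ρ z v = lev σ z v := by
  unfold lev
  apply lap_congr
  have hc : Tendsto (fun ζ : ℂ => z + ζ • v) (𝓝 0) (𝓝 z) := by
    have : Continuous (fun ζ : ℂ => z + ζ • v) := by fun_prop
    have h := this.tendsto 0
    simpa using h
  exact hc.eventually h

theorem isOpen_W (hPt : StPt) : IsOpen W := by
  have h0 := hPt.1 0
  have h1 : IsOpen {x : ℂ | x ∉ Lam} := by
    have : {x : ℂ | x ∉ Lam} = (fun x : ℂ => ((x, 0) : E)) ⁻¹' V 0 := by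
      ext x
      simp [V]
    rw [this]
    exact h0.preimage (by fun_prop)
  have h2 : W = (Prod.fst ⁻¹' {x : ℂ | x ∉ Lam}) ∩ (Prod.snd ⁻¹' ({0}ᶜ : Set ℂ)) := by
    ext z
    simp [W]
  rw [h2]
  exact (h1.preimage continuous_fst).inter (isOpen_compl_singleton.preimage continuous_snd)

theorem tr_an {i : Fin 5} {t : E} (h : tr i t ∈ W) : ContDiffAt ℂ ω (tr i) t := by
  fin_cases i
  · exact contDiffAt_id
  · have h2 : t.2 ≠ 0 := by
      intro h0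
      apply h.2
      simp [tr, h0]
    exact contDiffAt_fst.prodMk (contDiffAt_snd.inv h2)
  · show ContDiffAt ℂ ω (fun z : E => ((z.1 * z.2, z.2 + z.1 * z.2) : E)) t
    fun_prop
  · show ContDiffAt ℂ ω (fun z : E => ((z.1 * z.2, z.1 * z.2 ^ 2 + z.1 * z.2) : E)) t
    fun_prop
  · show ContDiffAt ℂ ω (fun z : E => ((z.1, z.1 ^ 2 * z.2 + z.1) : E)) t
    fun_prop

theorem pot_smooth {Φ : E → ℝ} (hΦ : ∀ z ∈ W, ContDiffAt ℝ ∞ Φ z) {i : Fin 5} {t : E}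
    (h : tr i t ∈ W) : ContDiffAt ℝ ∞ (fun s => Φ (tr i s)) t := by
  have h1 : ContDiffAt ℝ ∞ (tr i) t := ((tr_an h).restrict_scalars ℝ).of_le le_top
  exact (hΦ _ h).comp t h1

theorem lev_pot (hLev : StLev) {Φ : E → ℝ} (hΦ : ∀ z ∈ W, ContDiffAt ℝ ∞ Φ z) {i : Fin 5}
    {t v : E} {ρ : E → ℝ} (hW : tr i t ∈ W) (hρ : ContDiffAt ℝ ∞ ρ t)
    (h : lev (fun s => ρ s - Φ (tr i s)) t v = 0) : lev ρ t v = lev (fun s => Φ (tr i s)) t v := by
  have h2 : (2 : WithTop ℕ∞) ≤ ∞ := by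
    exact WithTop.coe_le_coe.2 (le_top : (2 : ℕ∞) ≤ ⊤)
  have h1 : ContDiffAt ℝ 2 (fun s => Φ (tr i s)) t := (pot_smooth hΦ hW).of_le h2
  have h3 : ContDiffAt ℝ 2 ρ t := hρ.of_le h2
  have h4 := hLev.2.2.1 (fun s => ρ s - Φ (tr i s)) (fun s => Φ (tr i s)) t v (h3.sub h1) h1
  simp only [sub_add_cancel] at h4
  rw [h, zero_add] at h4
  exact h4

theorem lev_comp (hLev : StLev) {σ : E → ℝ} {h : E → E} {t : E} (hh : ContDiffAt ℂ ω h t)
    (hσ : ContDiffAt ℝ 2 σ (h t)) (v : E) :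
    lev (fun s => σ (h s)) t v = lev σ (h t) (fderiv ℂ h t v) := by
  have hline : HasDerivAt (fun ζ : ℂ => t + ζ • v) v 0 := by
    have := ((hasDerivAt_id (0 : ℂ)).smul_const v).const_add t
    simpa using this
  have hh' : ContDiffAt ℂ ω h (t + (0 : ℂ) • v) := by simpa using hh
  have hf : ContDiffAt ℂ ω (fun ζ : ℂ => h (t + ζ • v)) 0 :=
    ContDiffAt.comp (0 : ℂ) (g := h) (f := fun ζ : ℂ => t + ζ • v) hh' (by fun_prop)
  have h1 := hLev.1 σ (fun ζ : ℂ => h (t + ζ • v)) hf (by simpa using hσ)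
  have h2 : deriv (fun ζ : ℂ => h (t + ζ • v)) 0 = fderiv ℂ h t v := by
    have h3 : HasFDerivAt h (fderiv ℂ h t) (t + (0 : ℂ) • v) := by
      have : DifferentiableAt ℂ h t := hh.differentiableAt (by simp)
      simpa using this.hasFDerivAt
    exact (h3.comp_hasDerivAt (0 : ℂ) hline).deriv
  unfold lev at h1 ⊢
  rw [h1, h2]
  simp

/-- independence of the chart -/
theorem indep (hPt : StPt) (hCpt : StCpt) (hLev : StLev) {Φ : E → ℝ} (hper : Per Φ)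
    (hΦ : ∀ z ∈ W, ContDiffAt ℝ ∞ Φ z) {i j : Fin 5} {z z' : E} (hz : z ∈ V i) (hz' : z' ∈ V j)
    {ρ ρ' : E → ℝ} (hρ : PotAt Φ i z ρ) (hρ' : PotAt Φ j z' ρ') {h : E → E}
    (hh : ContDiffAt ℂ ω h z) (hhz : h z = z') (hk : ∀ᶠ t in 𝓝 z, kap j (h t) = kap i t) (v : E) :
    lev ρ z v = lev ρ' z' (fderiv ℂ h z v) := by
  have h2 : (2 : WithTop ℕ∞) ≤ ∞ := by
    exact WithTop.coe_le_coe.2 (le_top : (2 : ℕ∞) ≤ ⊤)
  have : NeBot (𝓝[{t | tr i t ∈ W}] z) := mem_closure_iff_nhdsWithin_neBot.1 (hCpt.2.1 i z hz)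
  have hht : Tendsto h (𝓝 z) (𝓝 z') := by
    have := hh.continuousAt.tendsto
    rwa [hhz] at this
  have key : ∀ᶠ t in 𝓝[{t | tr i t ∈ W}] z, lev ρ t v = lev ρ' (h t) (fderiv ℂ h t v) := by
    have e1 : ∀ᶠ t in 𝓝 z, t ∈ V i := (hPt.1 i).mem_nhds hz
    have e2 : ∀ᶠ t in 𝓝 z, h t ∈ V j := hht.eventually ((hPt.1 j).mem_nhds hz')
    have e3 : ∀ᶠ t in 𝓝 z, ContDiffAt ℝ ∞ ρ t := hρ.1
    have e4 : ∀ᶠ t in 𝓝 z, ContDiffAt ℝ ∞ ρ' (h t) := hht.eventually hρ'.1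
    have e5 := hρ.2
    have e6 := hht.eventually hρ'.2
    have e7 : ∀ᶠ t in 𝓝 z, ContDiffAt ℂ ω h t := hh.eventually (by simp)
    have e8 := hk.eventually_nhds
    have e9 : ∀ᶠ t in 𝓝 z, ∀ᶠ s in 𝓝 t, s ∈ V i ∧ h s ∈ V j := (e1.and e2).eventually_nhds
    filter_upwards [e3.filter_mono nhdsWithin_le_nhds, e4.filter_mono nhdsWithin_le_nhds,
      e5.filter_mono nhdsWithin_le_nhds, e6.filter_mono nhdsWithin_le_nhds,
      e7.filter_mono nhdsWithin_le_nhds, e8.filter_mono nhdsWithin_le_nhds,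
      e9.filter_mono nhdsWithin_le_nhds, self_mem_nhdsWithin] with t t3 t4 t5 t6 t7 t8 t9 tW
    have tW' : tr j (h t) ∈ W := hPt.2.2.2.2.2.1 j (h t) t9.self_of_nhds.2 (tr i t) tW
      (by rw [t8.self_of_nhds, hPt.2.2.2.1 i t t9.self_of_nhds.1 tW])
    rw [lev_pot hLev hΦ tW t3 (t5 tW v), lev_pot hLev hΦ tW' t4 (t6 tW' _)]
    have heq : (fun s => Φ (tr i s)) =ᶠ[𝓝 t] fun s => Φ (tr j (h s)) := by
      have hWt : ∀ᶠ s in 𝓝 t, tr i s ∈ W :=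
        (tr_an tW).continuousAt.eventually ((isOpen_W hPt).mem_nhds tW)
      filter_upwards [hWt, t8, t9] with s s1 s2 s3
      have s4 : tr j (h s) ∈ W := hPt.2.2.2.2.2.1 j (h s) s3.2 (tr i s) s1
        (by rw [s2, hPt.2.2.2.1 i s s3.1 s1])
      have s5 : kap 0 (tr i s) = kap 0 (tr j (h s)) := by
        rw [← hPt.2.2.2.1 i s s3.1 s1, ← hPt.2.2.2.1 j _ s3.2 s4, s2]
      have s6 := hPt.2.2.2.2.1 _ s1 _ s4 s5
      exact per_eq hper s6.1 s6.2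
    rw [lev_congr heq]
    exact lev_comp hLev (σ := fun s => Φ (tr j s)) t7 ((pot_smooth hΦ tW').of_le h2) v
  have l1 : Tendsto (fun t => lev ρ t v) (𝓝[{t | tr i t ∈ W}] z) (𝓝 (lev ρ z v)) := by
    have c1 := hLev.2.1 ρ z v hρ.1
    have c2 : ContinuousAt (fun t : E => ((t, v) : E × E)) z := by fun_prop
    exact (ContinuousAt.comp (f := fun t : E => ((t, v) : E × E))
      (g := fun p : E × E => lev ρ p.1 p.2) c1 c2).tendsto.mono_left nhdsWithin_le_nhds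
  have l2 : Tendsto (fun t => lev ρ' (h t) (fderiv ℂ h t v)) (𝓝[{t | tr i t ∈ W}] z)
      (𝓝 (lev ρ' z' (fderiv ℂ h z v))) := by
    have c1 := hLev.2.1 ρ' z' (fderiv ℂ h z v) hρ'.1
    have c3 : ContinuousAt (fderiv ℂ h) z :=
      (hh.fderiv_right (m := 0) (by simp)).continuousAt
    have c2 : Tendsto (fun t : E => ((h t, fderiv ℂ h t v) : E × E)) (𝓝 z)
        (𝓝 (z', fderiv ℂ h z v)) :=
      hht.prodMk_nhds (c3.clm_apply continuousAt_const).tendsto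
    exact (c1.tendsto.comp c2).mono_left nhdsWithin_le_nhds
  exact tendsto_nhds_unique (l1.congr' key) l2

end ValAux

open ValAux

section

variable [τ : TopologicalSpace X] [ch : ChartedSpace E X]

/-- a chart with a potential at the point `q` -/
structure LC (Φ : E → ℝ) (q : X) (j : Fin 5) (z : E) (ρ : E → ℝ) (g : X → E) : Prop where
  mem : z ∈ V j
  eq : kap j z = q
  pot : PotAt Φ j z ρ
  an : ContMDiffAt 𝓘(ℂ, E) 𝓘(ℂ, E) ω g q
  val : g q = z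
  inv : ∀ᶠ p in 𝓝 q, kap j (g p) = p

theorem LC.an_disc {Φ : E → ℝ} {q : X} {j : Fin 5} {z : E} {ρ : E → ℝ} {g : X → E}
    (c : LC Φ q j z ρ g) {f : ℂ → X} (hf : IsDisc f) (hq : f 0 = q) :
    ContDiffAt ℂ ω (fun ζ => g (f ζ)) 0 := by
  have h1 : ContMDiffAt 𝓘(ℂ, ℂ) 𝓘(ℂ, E) ω (fun ζ => g (f ζ)) 0 := by
    have h2 : ContMDiffAt 𝓘(ℂ, E) 𝓘(ℂ, E) ω g (f 0) := by
      rw [hq]
      exact c.an
    exact h2.comp (0 : ℂ) hf
  exact contMDiffAt_iff_contDiffAt.1 h1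

theorem LC.value (hLev : StLev) {Φ : E → ℝ} {q : X} {j : Fin 5} {z : E} {ρ : E → ℝ} {g : X → E}
    (c : LC Φ q j z ρ g) {f : ℂ → X} (hf : IsDisc f) (hq : f 0 = q) :
    Laplacian.laplacian (fun ζ : ℂ => ρ (g (f ζ))) 0 = lev ρ z (deriv (fun ζ => g (f ζ)) 0) := by
  have h2 : (2 : WithTop ℕ∞) ≤ ∞ := by
    exact WithTop.coe_le_coe.2 (le_top : (2 : ℕ∞) ≤ ⊤)
  have h0 : g (f 0) = z := by rw [hq, c.val]
  have h1 := hLev.1 ρ (fun ζ => g (f ζ)) (c.an_disc hf hq)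
    (by
      show ContDiffAt ℝ 2 ρ (g (f 0))
      rw [h0]
      exact c.pot.1.self_of_nhds.of_le h2)
  simp only [h0] at h1
  exact h1

theorem LC.c2 {Φ : E → ℝ} {q : X} {j : Fin 5} {z : E} {ρ : E → ℝ} {g : X → E}
    (c : LC Φ q j z ρ g) {f : ℂ → X} (hf : IsDisc f) (hq : f 0 = q) :
    ContDiffAt ℝ 2 (fun ζ : ℂ => ρ (g (f ζ))) 0 := by
  have h2 : (2 : WithTop ℕ∞) ≤ ∞ := by
    exact WithTop.coe_le_coe.2 (le_top : (2 : ℕ∞) ≤ ⊤)
  have h0 : g (f 0) = z := by rw [hq, c.val]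
  have h1 : ContDiffAt ℝ 2 ρ (g (f 0)) := by
    rw [h0]
    exact c.pot.1.self_of_nhds.of_le h2
  have h3 : ContDiffAt ℝ 2 (fun ζ => g (f ζ)) 0 :=
    ((c.an_disc hf hq).restrict_scalars ℝ).of_le le_top
  exact ContDiffAt.comp (0 : ℂ) (g := ρ) (f := fun ζ => g (f ζ)) h1 h3

theorem LC.value_eq (hM : IsMan τ ch) (hPt : StPt) (hCpt : StCpt) (hLev : StLev) {Φ : E → ℝ}
    (hper : Per Φ) (hΦ : ∀ z ∈ W, ContDiffAt ℝ ∞ Φ z) {q : X} {i j : Fin 5} {z z' : E}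
    {ρ ρ' : E → ℝ} {g g' : X → E} (c : LC Φ q i z ρ g) (c' : LC Φ q j z' ρ' g') {f : ℂ → X}
    (hf : IsDisc f) (hq : f 0 = q) :
    Laplacian.laplacian (fun ζ : ℂ => ρ (g (f ζ))) 0 =
      Laplacian.laplacian (fun ζ : ℂ => ρ' (g' (f ζ))) 0 := by
  rw [c.value hLev hf hq, c'.value hLev hf hq]
  have hki : ContMDiffAt 𝓘(ℂ, E) 𝓘(ℂ, E) ω (kap i) z := hM.kap_an i z c.mem
  have hh : ContDiffAt ℂ ω (fun t => g' (kap i t)) z := by
    have h1 : ContMDiffAt 𝓘(ℂ, E) 𝓘(ℂ, E) ω g' (kap i z) := by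
      rw [c.eq]
      exact c'.an
    exact contMDiffAt_iff_contDiffAt.1 (h1.comp z hki)
  have hhz : g' (kap i z) = z' := by rw [c.eq, c'.val]
  have hkt : Tendsto (kap i) (𝓝 z) (𝓝 q) := by
    have := hki.continuousAt.tendsto
    rwa [c.eq] at this
  have hk : ∀ᶠ t in 𝓝 z, kap j (g' (kap i t)) = kap i t := hkt.eventually c'.inv
  rw [indep hPt hCpt hLev hper hΦ c.mem c'.mem c.pot c'.pot hh hhz hk]
  congr 1
  have hfc : Tendsto f (𝓝 0) (𝓝 q) := by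
    have := hf.continuousAt.tendsto
    rwa [hq] at this
  have h3 : (fun ζ => g' (kap i (g (f ζ)))) =ᶠ[𝓝 0] fun ζ => g' (f ζ) := by
    filter_upwards [hfc.eventually c.inv] with ζ hζ
    rw [hζ]
  rw [← h3.deriv_eq]
  have h0 : g (f 0) = z := by rw [hq, c.val]
  have h4 : HasFDerivAt (fun t => g' (kap i t)) (fderiv ℂ (fun t => g' (kap i t)) z) (g (f 0)) := by
    rw [h0]
    exact (hh.differentiableAt (by simp)).hasFDerivAt
  have h5 : HasDerivAt (fun ζ => g (f ζ)) (deriv (fun ζ => g (f ζ)) 0) 0 :=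
    ((c.an_disc hf hq).differentiableAt (by simp)).hasDerivAt
  exact (h4.comp_hasDerivAt (0 : ℂ) h5).deriv.symm

/-- a chart with a potential at `p` gives one at the points near `p` -/
theorem LC.near (hM : IsMan τ ch) (hPt : StPt) {Φ : E → ℝ} {q : X} {j : Fin 5} {z : E} {ρ : E → ℝ}
    {g : X → E} (c : LC Φ q j z ρ g) : ∀ᶠ p in 𝓝 q, LC Φ p j (g p) ρ g := by
  have := hM.man
  have hgt : Tendsto g (𝓝 q) (𝓝 z) := by
    have := c.an.continuousAt.tendsto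
    rwa [c.val] at this
  have e1 : ∀ᶠ p in 𝓝 q, g p ∈ V j := hgt.eventually ((hPt.1 j).mem_nhds c.mem)
  have e2 : ∀ᶠ p in 𝓝 q, SmAt ρ (g p) := hgt.eventually c.pot.1.eventually_nhds
  have e3 := hgt.eventually c.pot.2.eventually_nhds
  have e4 : ∀ᶠ p in 𝓝 q, ContMDiffAt 𝓘(ℂ, E) 𝓘(ℂ, E) ω g p :=
    (contMDiffAt_iff_contMDiffAt_nhds (by simp)).1 c.an
  filter_upwards [e1, e2, e3, e4, c.inv.eventually_nhds] with p p1 p2 p3 p4 p5
  exact ⟨p1, p5.self_of_nhds, ⟨p2, p3⟩, p4, rfl, p5⟩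

theorem LC.smooth {Φ : E → ℝ} {q : X} {j : Fin 5} {z : E} {ρ : E → ℝ} {g : X → E}
    (c : LC Φ q j z ρ g) : ContMDiffAt 𝓘(ℝ, E) 𝓘(ℝ, ℝ) ∞ (fun p => ρ (g p)) q := by
  have h4 : ContDiffAt ℝ ∞ ρ (g q) := by
    rw [c.val]
    exact c.pot.1.self_of_nhds
  exact h4.contMDiffAt.comp q (real_of_complex c.an)

end

theorem t_Val (hPt : StPt) (hCpt : StCpt) (hLev : StLev) : StVal := by
  intro τ ch hM Φ hper hΦ hpot
  have hex : ∀ p : X, ∃ (j : Fin 5) (z : E) (ρ : E → ℝ) (g : X → E), LC Φ p j z ρ g := by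
    intro p
    obtain ⟨j, z, hz, hp⟩ := hPt.2.1 p
    obtain ⟨ρ, hρ⟩ := hpot j z hz
    obtain ⟨g, hg1, hg2, hg3, hg4⟩ := hM.inv j z hz
    rw [hp] at hg1 hg2 hg3
    exact ⟨j, z, ρ, g, hz, hp, hρ, hg1, hg2, hg3⟩
  choose J Z R G hC using hex
  refine ⟨⟨fun p q => R p (G p q), ?_, ?_⟩, ?_⟩
  · intro p
    filter_upwards [(hC p).near hM hPt] with q hq
    exact hq.smooth
  · intro p
    filter_upwards [(hC p).near hM hPt] with q hq f hf h0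
    have h1 := hq.value_eq hM hPt hCpt hLev hper hΦ (hC q) hf h0
    have h2 := (hq.c2 hf h0).laplacian_sub ((hC q).c2 hf h0)
    rw [h1, sub_self] at h2
    exact h2
  · intro f hf j z hz hk ρ hρ g hg1 hg2 hg3
    have c : LC Φ (f 0) j z ρ g := ⟨hz, hk, hρ, hg1, hg2, hg3⟩
    rw [← c.value hLev hf rfl]
    exact (hC (f 0)).value_eq hM hPt hCpt hLev hper hΦ c hf rfl

end Pool.Agent.Y184.SP
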